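import Mathlib
import Pool.Agent.H.MP_e825aa_al.Main

set_option autoImplicit false
set_option maxHeartbeats 400000

namespace Pool.Agent.Results.MP_fae9ec_al.DisjointNormal

/-- `G / H` is a faithful irreducible coset space. -/
def FaithfulIrreducible {G : Type} [Group G] [TopologicalSpace G] (H : Subgroup G) : Prop :=
  IsClosed (H : Set G) ∧ H ≠ ⊤ ∧
    (∀ K : Subgroup G, IsClosed (K : Set G) → H ≤ K → K = H ∨ K = ⊤) ∧ H.normalCore = ⊥

/-- `M` is minimal among the nontrivial closed normal subgroups. -/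
def MinClosedNormal {G : Type} [Group G] [TopologicalSpace G] (M : Subgroup G) : Prop :=
  M.Normal ∧ IsClosed (M : Set G) ∧ M ≠ ⊥ ∧
    ∀ N : Subgroup G, N.Normal → IsClosed (N : Set G) → N ≤ M → N = ⊥ ∨ N = M

open Pool.Agent.H.MP_e825aa_al

theorem fi : FaithfulIrreducible HH := ⟨H_closed, H_ne_top, H_max, H_core⟩

theorem mn (l : Lam) (hl : l ≠ 0) : MinClosedNormal (M l) :=
  ⟨M_normal l, M_closed l, M_ne_bot l hl, fun N hN _ hle => M_min l N hN hle⟩

theorem s_ne (i : ℕ) : (Finsupp.single i 1 : Lam) ≠ 0 := by simp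

theorem s_inj (i j : ℕ) (h : (Finsupp.single i 1 : Lam) = Finsupp.single j 1) : i = j :=
  Finsupp.single_left_injective one_ne_zero h

theorem result : ∃ (G : Type) (_ : Group G) (_ : TopologicalSpace G),
    IsTopologicalGroup G ∧ T2Space G ∧ SecondCountableTopology G ∧
    ∃ H M N : Subgroup G, FaithfulIrreducible H ∧ MinClosedNormal M ∧
      (∀ x ∈ M, ∀ y ∈ M, x * y = y * x) ∧
      N.Normal ∧ IsClosed (N : Set G) ∧ N ≠ ⊥ ∧ M ⊓ N = ⊥ :=
  ⟨G, inferInstance, inferInstance, inferInstance, inferInstance, inferInstance, HH,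
    M (Finsupp.single 0 1), M (Finsupp.single 1 1), fi, mn _ (s_ne 0),
    fun x hx y hy => M_comm _ _ x y hx hy, M_normal _, M_closed _, M_ne_bot _ (s_ne 1),
    M_inf _ _ (fun e => zero_ne_one (s_inj 0 1 e))⟩

end Pool.Agent.Results.MP_fae9ec_al.DisjointNormal
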